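import Mathlib

/-!
# The closing inequality of JOB HF
-/

set_option autoImplicit false

namespace Pool.Agent.K7.H86.TD

theorem closing (K1 : ℝ) (hK1 : 0 < K1) : ∃ K : ℝ, 0 < K ∧ ∀ (k1 k2 b h : ℕ) (T0 : ℝ),
    1 ≤ k1 → 1 ≤ k2 → 1 ≤ h → h ≤ k1 + k2 → 3 * (k1 + k2) ≤ 20 * k1 → h ≤ 2 * k2 → 5 * k2 ≤ 8 * h →
    (2 : ℝ) ^ b ≤ (h : ℝ) ^ (1 / 25 : ℝ) → (h : ℝ) ^ (1 / 25 : ℝ) ≤ 2 ^ (b + 1) → 0 < T0 →
    T0 ≤ K1 * (h : ℝ) ^ (1 / 20 : ℝ) → Real.exp (-T0 / 500) ≤ 1 / ((k1 + k2 : ℕ) : ℝ) →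
    (11 * 2 ^ k2 / Real.sqrt (2 ^ b) + 2 * 2 ^ k2 / (k2 : ℝ) ^ 2) * (2 * 2 ^ k1 / Real.sqrt k1)
      + (2 * Real.sqrt (k2 * Real.log k2) + 1) * (Real.sqrt (2 * 2 ^ k2 / Real.sqrt k2 * 2 ^ (k2 + b + 1)) *
        ((140 * T0 / h) ^ (0.34 : ℝ) * (2 * 2 ^ k1 / Real.sqrt k1) + 2 ^ k1 * (5 * Real.exp (-T0 / 500))))
      ≤ K * 2 ^ (k1 + k2) / Real.sqrt ((k1 + k2 : ℕ) : ℝ) * (h : ℝ) ^ (-(1 / 50) : ℝ) := by
  set C0 : ℝ := (140 * K1) ^ (0.34 : ℝ) with hC0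
  have C0pos : 0 < C0 := Real.rpow_pos_of_pos (by positivity) _
  refine ⟨507 + 432 * C0, by positivity, ?_⟩
  intro k1 k2 b h T0 hk1 hk2 hh hhk h3 h2k h5 hb1 hb2 hT hTK hexp
  have H1 : (1 : ℝ) ≤ h := by exact_mod_cast hh
  have H0 : (0 : ℝ) < h := by linarith
  have K1' : (1 : ℝ) ≤ k1 := by exact_mod_cast hk1
  have K2' : (1 : ℝ) ≤ k2 := by exact_mod_cast hk2
  have kk : (((k1 + k2 : ℕ) : ℝ)) = (k1 : ℝ) + k2 := by push_cast; ring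
  set k : ℝ := ((k1 + k2 : ℕ) : ℝ) with hk
  have k0 : 0 < k := by rw [kk]; linarith
  have hHk : (h : ℝ) ≤ k := by rw [hk]; exact_mod_cast hhk
  have h3' : 3 * k ≤ 20 * k1 := by rw [hk]; exact_mod_cast h3
  have h2k' : (h : ℝ) ≤ 2 * k2 := by exact_mod_cast h2k
  have h5' : 5 * (k2 : ℝ) ≤ 8 * h := by exact_mod_cast h5
  set H : ℝ := (h : ℝ) with hH
  set s : ℝ := 1 / Real.sqrt k with hs
  have sk : 0 < Real.sqrt k := Real.sqrt_pos.2 k0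
  have s0 : 0 < s := by positivity
  have sk1 : 0 < Real.sqrt k1 := Real.sqrt_pos.2 (by linarith)
  have sk2 : 0 < Real.sqrt k2 := Real.sqrt_pos.2 (by linarith)
  -- a1
  have a1 : 1 / Real.sqrt k1 ≤ 3 * s := by
    have : Real.sqrt k ≤ 3 * Real.sqrt k1 := by
      apply Real.sqrt_le_iff.2
      refine ⟨by positivity, ?_⟩
      rw [mul_pow, Real.sq_sqrt (by linarith)]
      linarith
    rw [hs, mul_one_div, div_le_div_iff₀ sk1 sk]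
    linarith
  -- a2
  have e0 : 0 < H ^ (-(1 / 50) : ℝ) := Real.rpow_pos_of_pos H0 _
  have sb : 0 < Real.sqrt ((2 : ℝ) ^ b) := Real.sqrt_pos.2 (by positivity)
  have a2 : 1 / Real.sqrt ((2 : ℝ) ^ b) ≤ 1.5 * H ^ (-(1 / 50) : ℝ) := by
    have t1 : H ^ (1 / 50 : ℝ) ≤ 1.5 * Real.sqrt ((2 : ℝ) ^ b) := by
      apply le_of_sq_le_sq _ (by positivity)
      rw [mul_pow, Real.sq_sqrt (by positivity), ← Real.rpow_natCast, ← Real.rpow_mul H0.le]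
      have : (1 / 50 * ((2 : ℕ) : ℝ) : ℝ) = 1 / 25 := by norm_num
      rw [this]
      have t2 : (2 : ℝ) ^ (b + 1) = 2 * 2 ^ b := by ring
      have t3 : (0 : ℝ) < 2 ^ b := by positivity
      rw [t2] at hb2
      nlinarith
    rw [Real.rpow_neg H0.le, div_le_iff₀ sb, mul_assoc, mul_comm, mul_assoc, ← div_eq_inv_mul,
      le_div_iff₀ (Real.rpow_pos_of_pos H0 _)]
    linarith
  -- a3
  have a3 : 1 / (k2 : ℝ) ^ 2 ≤ 4 * H ^ (-(1 / 50) : ℝ) := by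
    have t1 : H ^ (1 / 50 : ℝ) ≤ H := by
      conv_rhs => rw [← Real.rpow_one H]
      exact Real.rpow_le_rpow_of_exponent_le H1 (by norm_num)
    rw [Real.rpow_neg H0.le, ← div_eq_mul_inv, div_le_div_iff₀ (by positivity) (Real.rpow_pos_of_pos H0 _)]
    nlinarith
  -- a4
  have lk2 : 0 ≤ Real.log k2 := Real.log_nonneg K2'
  have a4 : 2 * Real.sqrt (k2 * Real.log k2) + 1 ≤ 24 * H ^ (51 / 100 : ℝ) := by
    have t0 : (1 : ℝ) ≤ H ^ (51 / 100 : ℝ) := Real.one_le_rpow H1 (by norm_num)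
    have t1 : Real.log k2 ≤ 50 * (k2 : ℝ) ^ (1 / 50 : ℝ) := by
      have := Real.log_le_rpow_div (x := (k2 : ℝ)) (by linarith) (ε := 1 / 50) (by norm_num)
      linarith
    have t2 : (k2 : ℝ) ^ (1 / 50 : ℝ) ≤ 1.6 * H ^ (1 / 50 : ℝ) := by
      calc (k2 : ℝ) ^ (1 / 50 : ℝ) ≤ (1.6 * H) ^ (1 / 50 : ℝ) :=
            Real.rpow_le_rpow (by linarith) (by linarith) (by norm_num)
        _ = 1.6 ^ (1 / 50 : ℝ) * H ^ (1 / 50 : ℝ) := Real.mul_rpow (by norm_num) H0.le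
        _ ≤ 1.6 * H ^ (1 / 50 : ℝ) := by
            apply mul_le_mul_of_nonneg_right _ (Real.rpow_nonneg H0.le _)
            conv_rhs => rw [← Real.rpow_one (1.6 : ℝ)]
            exact Real.rpow_le_rpow_of_exponent_le (by norm_num) (by norm_num)
    have t3 : Real.sqrt (k2 * Real.log k2) ≤ 11.4 * H ^ (51 / 100 : ℝ) := by
      apply Real.sqrt_le_iff.2
      refine ⟨by positivity, ?_⟩
      have t4 : (H ^ (51 / 100 : ℝ)) ^ 2 = H * H ^ (1 / 50 : ℝ) := by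
        rw [← Real.rpow_natCast, ← Real.rpow_mul H0.le]
        conv_rhs => rw [← Real.rpow_one H]
        rw [← Real.rpow_mul H0.le, ← Real.rpow_add H0]
        norm_num
      rw [mul_pow, t4]
      have t5 : 0 ≤ H ^ (1 / 50 : ℝ) := Real.rpow_nonneg H0.le _
      calc (k2 : ℝ) * Real.log k2 ≤ (1.6 * H) * (50 * (1.6 * H ^ (1 / 50 : ℝ))) := by
            apply mul_le_mul (by linarith) (by linarith) lk2 (by positivity)
        _ ≤ 11.4 ^ 2 * (H * H ^ (1 / 50 : ℝ)) := by nlinarith [mul_nonneg H0.le t5]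
    linarith
  have s24 : 0 ≤ 2 * Real.sqrt (k2 * Real.log k2) + 1 := by positivity
  -- a5
  have a5 : Real.sqrt (2 * 2 ^ k2 / Real.sqrt k2 * 2 ^ (k2 + b + 1)) ≤ 3 * 2 ^ k2 * H ^ (-(23 / 100) : ℝ) := by
    apply Real.sqrt_le_iff.2
    refine ⟨by positivity, ?_⟩
    have t1 : (2 * (2 : ℝ) ^ k2 / Real.sqrt k2 * 2 ^ (k2 + b + 1)) = (2 ^ k2) ^ 2 * (4 * 2 ^ b / Real.sqrt k2) := by
      rw [pow_add, pow_add]
      ring
    have t2 : (3 * 2 ^ k2 * H ^ (-(23 / 100) : ℝ)) ^ 2 = (2 ^ k2) ^ 2 * (9 * H ^ (-(46 / 100) : ℝ)) := by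
      have : (H ^ (-(23 / 100) : ℝ)) ^ 2 = H ^ (-(46 / 100) : ℝ) := by
        rw [← Real.rpow_natCast, ← Real.rpow_mul H0.le]
        norm_num
      rw [mul_pow, mul_pow, this]
      ring
    rw [t1, t2]
    apply mul_le_mul_of_nonneg_left _ (by positivity)
    have t3 : Real.sqrt H ≤ 1.5 * Real.sqrt k2 := by
      apply Real.sqrt_le_iff.2
      refine ⟨by positivity, ?_⟩
      rw [mul_pow, Real.sq_sqrt (by linarith)]
      linarith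
    rw [div_le_iff₀ sk2]
    have t4 : H ^ (1 / 25 : ℝ) = H ^ (-(46 / 100) : ℝ) * Real.sqrt H := by
      rw [Real.sqrt_eq_rpow, ← Real.rpow_add H0]
      norm_num
    have t5 : 0 < H ^ (-(46 / 100) : ℝ) := Real.rpow_pos_of_pos H0 _
    calc 4 * (2 : ℝ) ^ b ≤ 4 * (H ^ (-(46 / 100) : ℝ) * Real.sqrt H) := by rw [← t4]; linarith
      _ ≤ 4 * (H ^ (-(46 / 100) : ℝ) * (1.5 * Real.sqrt k2)) := by gcongr
      _ ≤ 9 * H ^ (-(46 / 100) : ℝ) * Real.sqrt k2 := by nlinarith [mul_pos t5 sk2]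
  -- a6
  have a6 : (140 * T0 / H) ^ (0.34 : ℝ) ≤ C0 * H ^ (-(323 / 1000) : ℝ) := by
    have t1 : 140 * T0 / H ≤ 140 * K1 * H ^ (-(19 / 20) : ℝ) := by
      rw [div_le_iff₀ H0]
      have : H ^ (-(19 / 20) : ℝ) * H = H ^ (1 / 20 : ℝ) := by
        conv_lhs => rw [← Real.rpow_one H]
        rw [← Real.rpow_mul H0.le, ← Real.rpow_add H0]
        norm_num
      rw [mul_assoc, this]
      linarith
    calc (140 * T0 / H) ^ (0.34 : ℝ) ≤ (140 * K1 * H ^ (-(19 / 20) : ℝ)) ^ (0.34 : ℝ) :=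
          Real.rpow_le_rpow (by positivity) t1 (by norm_num)
      _ = C0 * H ^ (-(323 / 1000) : ℝ) := by
          rw [Real.mul_rpow (by positivity) (Real.rpow_nonneg H0.le _), ← Real.rpow_mul H0.le]
          norm_num [hC0]
  -- a7
  have a7 : Real.exp (-T0 / 500) ≤ s * H ^ (-(1 / 2) : ℝ) := by
    refine le_trans hexp ?_
    have t1 : 1 / k = s * (1 / Real.sqrt k) := by
      rw [hs, div_mul_div_comm, one_mul, Real.mul_self_sqrt k0.le]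
    rw [t1]
    apply mul_le_mul_of_nonneg_left _ s0.le
    rw [Real.rpow_neg H0.le, ← Real.sqrt_eq_rpow, one_div]
    apply inv_anti₀ (Real.sqrt_pos.2 H0) (Real.sqrt_le_sqrt hHk)
  have ex0 := Real.exp_pos (-T0 / 500)
  have c6 : 0 ≤ (140 * T0 / H) ^ (0.34 : ℝ) := Real.rpow_nonneg (by positivity) _
  set P : ℝ := 2 ^ k1 with hP
  set Q : ℝ := 2 ^ k2 with hQ
  have P0 : 0 < P := by positivity
  have Q0 : 0 < Q := by positivity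
  set X1 : ℝ := 1 / Real.sqrt (2 ^ b) with hX1
  set X2 : ℝ := 1 / (k2 : ℝ) ^ 2 with hX2
  set X3 : ℝ := 1 / Real.sqrt k1 with hX3
  have X30 : 0 ≤ X3 := by positivity
  have X10 : 0 ≤ X1 := by positivity
  have X20 : 0 ≤ X2 := by positivity
  have r1 : 11 * Q / Real.sqrt (2 ^ b) = 11 * Q * X1 := by rw [hX1]; ring
  have r2 : 2 * Q / (k2 : ℝ) ^ 2 = 2 * Q * X2 := by rw [hX2]; ring
  have r3 : 2 * P / Real.sqrt k1 = 2 * P * X3 := by rw [hX3]; ring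
  rw [r1, r2, r3]
  have g1 : H ^ (51 / 100 : ℝ) * H ^ (-(23 / 100) : ℝ) * H ^ (-(323 / 1000) : ℝ) ≤ H ^ (-(1 / 50) : ℝ) := by
    rw [← Real.rpow_add H0, ← Real.rpow_add H0]
    exact Real.rpow_le_rpow_of_exponent_le H1 (by norm_num)
  have g2 : H ^ (51 / 100 : ℝ) * H ^ (-(23 / 100) : ℝ) * H ^ (-(1 / 2) : ℝ) ≤ H ^ (-(1 / 50) : ℝ) := by
    rw [← Real.rpow_add H0, ← Real.rpow_add H0]
    exact Real.rpow_le_rpow_of_exponent_le H1 (by norm_num)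
  have n1 : 0 ≤ H ^ (51 / 100 : ℝ) := Real.rpow_nonneg H0.le _
  have n2 : 0 ≤ H ^ (-(23 / 100) : ℝ) := Real.rpow_nonneg H0.le _
  have n3 : 0 ≤ H ^ (-(323 / 1000) : ℝ) := Real.rpow_nonneg H0.le _
  have n4 : 0 ≤ H ^ (-(1 / 2) : ℝ) := Real.rpow_nonneg H0.le _
  have U1 : (11 * Q * X1 + 2 * Q * X2) * (2 * P * X3) ≤
      (11 * Q * (1.5 * H ^ (-(1 / 50) : ℝ)) + 2 * Q * (4 * H ^ (-(1 / 50) : ℝ))) * (2 * P * (3 * s)) := by
    gcongr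
  have U2 : (2 * Real.sqrt (k2 * Real.log k2) + 1) * (Real.sqrt (2 * Q / Real.sqrt k2 * 2 ^ (k2 + b + 1)) *
      ((140 * T0 / H) ^ (0.34 : ℝ) * (2 * P * X3) + P * (5 * Real.exp (-T0 / 500)))) ≤
      (24 * H ^ (51 / 100 : ℝ)) * ((3 * Q * H ^ (-(23 / 100) : ℝ)) *
      ((C0 * H ^ (-(323 / 1000) : ℝ)) * (2 * P * (3 * s)) + P * (5 * (s * H ^ (-(1 / 2) : ℝ))))) := by
    gcongr
  have U3 : (24 * H ^ (51 / 100 : ℝ)) * ((3 * Q * H ^ (-(23 / 100) : ℝ)) *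
      ((C0 * H ^ (-(323 / 1000) : ℝ)) * (2 * P * (3 * s)) + P * (5 * (s * H ^ (-(1 / 2) : ℝ))))) =
      P * Q * s * (432 * C0 * (H ^ (51 / 100 : ℝ) * H ^ (-(23 / 100) : ℝ) * H ^ (-(323 / 1000) : ℝ))
        + 360 * (H ^ (51 / 100 : ℝ) * H ^ (-(23 / 100) : ℝ) * H ^ (-(1 / 2) : ℝ))) := by ring
  have U4 : P * Q * s * (432 * C0 * (H ^ (51 / 100 : ℝ) * H ^ (-(23 / 100) : ℝ) * H ^ (-(323 / 1000) : ℝ))
        + 360 * (H ^ (51 / 100 : ℝ) * H ^ (-(23 / 100) : ℝ) * H ^ (-(1 / 2) : ℝ))) ≤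
      P * Q * s * (432 * C0 * H ^ (-(1 / 50) : ℝ) + 360 * H ^ (-(1 / 50) : ℝ)) := by
    gcongr
  have U5 : (507 + 432 * C0) * 2 ^ (k1 + k2) / Real.sqrt k * H ^ (-(1 / 50) : ℝ) =
      (11 * Q * (1.5 * H ^ (-(1 / 50) : ℝ)) + 2 * Q * (4 * H ^ (-(1 / 50) : ℝ))) * (2 * P * (3 * s))
      + P * Q * s * (432 * C0 * H ^ (-(1 / 50) : ℝ) + 360 * H ^ (-(1 / 50) : ℝ)) := by
    rw [pow_add, ← hP, ← hQ, hs]
    ring
  rw [U5]
  linarith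

end Pool.Agent.K7.H86.TD
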