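import Pool.Agent.K7.H57.TD.HF2
import Pool.Agent.K7.H86.TD.Close
import Pool.Agent.K7.H90.TD.StG
import Pool.Agent.K7.H90.TD.StL
import Pool.Agent.K7.H15.TD.Tail
import Pool.Agent.K7.H72.TD.W
import Pool.Agent.K7.H5.TD.SegFin

/-!
# JOB HF, unconditional
-/

set_option autoImplicit false

namespace Pool.Agent.K7.H86.TD

open Pool.Agent.K7.H66.TD

theorem closing' : Pool.Agent.K7.H57.TD.Closing := closing

theorem hf : StW → StG → StL → StTail → StCen → StHF :=
  Pool.Agent.K7.H57.TD.hf_of_closing closing'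

theorem stW' : StW := Pool.Agent.K7.H72.TD.stW Pool.Agent.K7.H5.TD.stSeg Pool.Agent.K7.H15.TD.tail

theorem stHF : StHF :=
  hf stW' Pool.Agent.K7.H90.TD.stG Pool.Agent.K7.H90.TD.stL Pool.Agent.K7.H15.TD.tail Pool.Agent.K7.H15.TD.cen

end Pool.Agent.K7.H86.TD
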