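import Pool.Agent.K7.H66.TD.Base
import Pool.Agent.K7.H66.TD.Defs2

/-!
# From the oscillation estimate to natural density
-/

set_option autoImplicit false

namespace Pool.Agent.K7.H86.TD

open Finset Pool.Agent.K7.H66.TD

/-! ## The counting function `Dn` -/

theorem Dn_mono (B : ℕ → Prop) {Z Z' : ℕ} (h : Z ≤ Z') (m y : ℕ) : Dn B Z m y ≤ Dn B Z' m y := by
  classical
  unfold Dn
  exact card_le_card (filter_subset_filter _ (range_subset_range.2 h))

theorem Dn_le (B : ℕ → Prop) (h R y : ℕ) : Dn B (3 ^ h * R) h y ≤ R := by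
  classical
  unfold Dn
  conv_rhs => rw [← card_range R]
  refine card_le_card_of_injOn (fun M => M / 3 ^ h) ?_ ?_
  · intro M hM
    simp only [coe_filter, Set.mem_ofPred_eq, mem_range, coe_range, Set.mem_Iio] at hM ⊢
    exact Nat.div_lt_of_lt_mul hM.1
  · intro M hM M' hM' he
    simp only [coe_filter, Set.mem_ofPred_eq, mem_range] at hM hM'
    simp only at he
    have e1 := Nat.div_add_mod M (3 ^ h)
    have e2 := Nat.div_add_mod M' (3 ^ h)
    rw [← e1, ← e2, he, hM.2.2, hM'.2.2]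

theorem Dn_big (B : ℕ → Prop) (Z h y : ℕ) (hy : 3 ^ h ≤ y) : Dn B Z h y = 0 := by
  classical
  unfold Dn
  rw [card_eq_zero, filter_eq_empty_iff]
  intro M _ hM
  have := Nat.mod_lt M (show 0 < 3 ^ h by positivity)
  omega

theorem Dn_zero (B : ℕ → Prop) (C Z h y : ℕ) (hB : ∀ N, B N → C < N) (hZ : Z ≤ C + 1) : Dn B Z h y = 0 := by
  classical
  unfold Dn
  rw [card_eq_zero, filter_eq_empty_iff]
  intro M hM hM'
  have := hB M hM'.1
  rw [mem_range] at hM
  omega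

theorem Dn_sum (B : ℕ → Prop) (Z h : ℕ) (Y : ZMod (3 ^ h)) :
    ∑ Y1 ∈ (Finset.univ : Finset (ZMod (3 ^ (h + 1)))).filter (fun Y1 => (Y1.cast : ZMod (3 ^ h)) = Y),
      Dn B Z (h + 1) Y1.val = Dn B Z h Y.val := by
  classical
  unfold Dn
  have key : ∀ M : ℕ, ((M : ZMod (3 ^ (h + 1))).cast : ZMod (3 ^ h)) = Y ↔ M % 3 ^ h = Y.val := by
    intro M
    rw [ZMod.cast_natCast (pow_dvd_pow 3 (Nat.le_succ h))]
    constructor
    · intro e
      rw [← e, ZMod.val_natCast]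
    · intro e
      apply ZMod.val_injective
      rw [ZMod.val_natCast, e]
  symm
  rw [card_eq_sum_card_fiberwise (f := fun M : ℕ => (M : ZMod (3 ^ (h + 1))))
    (t := (Finset.univ : Finset (ZMod (3 ^ (h + 1)))).filter (fun Y1 => (Y1.cast : ZMod (3 ^ h)) = Y))]
  · refine sum_congr rfl fun Y1 hY1 => ?_
    congr 1
    ext M
    simp only [mem_filter, mem_range]
    rw [mem_filter] at hY1
    constructor
    · rintro ⟨⟨h1, h2, _⟩, h4⟩
      refine ⟨h1, h2, ?_⟩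
      rw [← h4, ZMod.val_natCast]
    · rintro ⟨h1, h2, h3⟩
      have h4 : (M : ZMod (3 ^ (h + 1))) = Y1 := by
        apply ZMod.val_injective
        rw [ZMod.val_natCast, h3]
      refine ⟨⟨h1, h2, ?_⟩, h4⟩
      rw [← key, h4]
      exact hY1.2
  · intro M hM
    simp only [coe_filter, Set.mem_ofPred_eq, mem_range, mem_univ, true_and] at hM ⊢
    rw [key]
    exact hM.2.2

/-- the density of `B` in a residue class. -/
noncomputable def psi (B : ℕ → Prop) (W h : ℕ) (Y : ZMod (3 ^ h)) : ℝ := (Dn B W h Y.val : ℝ) * 3 ^ h / W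

theorem psi_nonneg (B : ℕ → Prop) (W h : ℕ) (Y : ZMod (3 ^ h)) : 0 ≤ psi B W h Y := by
  unfold psi
  positivity

theorem psi_le_one (B : ℕ → Prop) (n A h : ℕ) (hh : h ≤ n) (Y : ZMod (3 ^ h)) : psi B (3 ^ n * A) h Y ≤ 1 := by
  unfold psi
  apply div_le_one_of_le₀ _ (by positivity)
  have h1 := Dn_le B h (3 ^ (n - h) * A) Y.val
  have h2 : 3 ^ h * (3 ^ (n - h) * A) = 3 ^ n * A := by
    rw [← mul_assoc, ← pow_add, Nat.add_sub_cancel' hh]
  rw [h2] at h1
  calc (Dn B (3 ^ n * A) h Y.val : ℝ) * 3 ^ h ≤ ((3 ^ (n - h) * A : ℕ) : ℝ) * 3 ^ h := by gcongr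
    _ = ((3 ^ n * A : ℕ) : ℝ) := by rw [← h2]; push_cast; ring

theorem psi_sum (B : ℕ → Prop) (W h : ℕ) (Y : ZMod (3 ^ h)) :
    ∑ Y1 ∈ (Finset.univ : Finset (ZMod (3 ^ (h + 1)))).filter (fun Y1 => (Y1.cast : ZMod (3 ^ h)) = Y),
      psi B W (h + 1) Y1 = 3 * psi B W h Y := by
  have h1 := Dn_sum B W h Y
  have h2 : (∑ Y1 ∈ (Finset.univ : Finset (ZMod (3 ^ (h + 1)))).filter (fun Y1 => (Y1.cast : ZMod (3 ^ h)) = Y),
      (Dn B W (h + 1) Y1.val : ℝ)) = Dn B W h Y.val := by exact_mod_cast h1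
  unfold psi
  rw [← sum_div, ← sum_mul, h2]
  have h3 : (3 : ℝ) ^ (h + 1) = 3 * 3 ^ h := by ring
  rw [h3]
  ring

theorem psi_top (B : ℕ → Prop) (n A : ℕ) (hA : 0 < A) (Y : ZMod (3 ^ n)) :
    (Dn B (3 ^ n * A) n Y.val : ℝ) = A * psi B (3 ^ n * A) n Y := by
  unfold psi
  have : (A : ℝ) ≠ 0 := by positivity
  push_cast
  field_simp

/-! ## Splitting according to the number of ones -/

theorem sum_ones {M : Type*} [AddCommMonoid M] (k : ℕ) (F : ℕ → ℕ → M) :
    ∑ x ∈ range (2 ^ k), F (ones k x) x = ∑ S ∈ range (k + 1), ∑ x ∈ Wd k S, F S x := by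
  rw [← sum_fiberwise_of_maps_to (s := range (2 ^ k)) (t := range (k + 1)) (g := ones k)
    (fun x _ => mem_range.2 (Nat.lt_succ_of_le (ones_le k x)))]
  refine sum_congr rfl fun S _ => ?_
  unfold Wd
  refine sum_congr rfl fun x hx => ?_
  rw [(mem_filter.1 hx).2]

theorem good_card (k : ℕ) (l : ℝ) (hl : 0 ≤ l) :
    (((range (k + 1)).filter (fun S : ℕ => |2 * (S : ℝ) - k| ≤ l)).card : ℝ) ≤ l + 1 := by
  have hsub : (range (k + 1)).filter (fun S : ℕ => |2 * (S : ℝ) - k| ≤ l) ⊆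
      Icc ⌈((k : ℝ) - l) / 2⌉₊ ⌊((k : ℝ) + l) / 2⌋₊ := by
    intro S hS
    rw [mem_filter] at hS
    obtain ⟨_, h2⟩ := hS
    rw [abs_le] at h2
    rw [mem_Icc]
    refine ⟨Nat.ceil_le.2 (by linarith), Nat.le_floor (by linarith)⟩
  have h1 := card_le_card hsub
  rw [Nat.card_Icc] at h1
  set a := ⌊((k : ℝ) + l) / 2⌋₊ with ha
  set b := ⌈((k : ℝ) - l) / 2⌉₊ with hb
  have h2 : (a : ℝ) ≤ ((k : ℝ) + l) / 2 := Nat.floor_le (by positivity)
  have h3 : ((k : ℝ) - l) / 2 ≤ b := Nat.le_ceil _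
  rcases le_or_gt b (a + 1) with h | h
  · calc _ ≤ ((a + 1 - b : ℕ) : ℝ) := by exact_mod_cast h1
      _ = (a : ℝ) + 1 - b := by push_cast [Nat.cast_sub h]; ring
      _ ≤ l + 1 := by linarith
  · have : a + 1 - b = 0 := by omega
    rw [this] at h1
    have h4 : ((range (k + 1)).filter (fun S : ℕ => |2 * (S : ℝ) - k| ≤ l)).card = 0 := by omega
    rw [h4]
    push_cast
    linarith

/-! ## Largeness conditions -/

theorem ev_rpow (D a b : ℝ) (h : a < b) : ∀ᶠ x : ℝ in Filter.atTop, D * x ^ a ≤ x ^ b := by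
  have h1 := tendsto_rpow_atTop (sub_pos.2 h)
  filter_upwards [h1.eventually_ge_atTop D, Filter.eventually_gt_atTop 0] with x hx h0
  calc D * x ^ a ≤ x ^ (b - a) * x ^ a := mul_le_mul_of_nonneg_right hx (Real.rpow_nonneg h0.le a)
    _ = x ^ b := by rw [← Real.rpow_add h0]; ring_nf

theorem ev_log (ε D : ℝ) (hε : 0 < ε) (hD : 0 < D) : ∀ᶠ x : ℝ in Filter.atTop, Real.log x ≤ D * x ^ ε := by
  have h1 := (isLittleO_log_rpow_atTop hε).bound hD
  filter_upwards [h1, Filter.eventually_ge_atTop 1] with x hx h0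
  rw [Real.norm_of_nonneg (Real.log_nonneg h0), Real.norm_of_nonneg (Real.rpow_nonneg (by linarith) _)] at hx
  exact hx

/-- all largeness conditions. -/
structure Big (c K c1 x : ℝ) : Prop where
  hone : 100 ≤ x
  hb : 2 * Real.sqrt (x * Real.log x) ≤ 0.02 * x
  hc : x ^ (1 / 40 : ℝ) + 1 ≤ (x / 2) ^ (1 / 30 : ℝ)
  hd : x ^ (1 / 40 : ℝ) + 1 ≤ 0.49 * x
  he : (3 * x) ^ (1 / 30 : ℝ) ≤ x ^ (1 / 20 : ℝ)
  hf : 4 * x ^ (1 / 20 : ℝ) ≤ x
  hg : (2 * Real.sqrt (x * Real.log x) + 1) * (K / Real.sqrt x * (x ^ (1 / 40 : ℝ)) ^ (-c)) + 2 * Real.exp (-(2 * Real.log x))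
    + Real.exp (-(Real.log 2 / 2 * x)) ≤ x ^ (-c1)

theorem ev_big (c K c1 : ℝ) (hc : 0 < c) (hK : 0 < K) (h1 : c1 ≤ c / 80) (h2 : c1 ≤ 1) :
    ∀ᶠ x : ℝ in Filter.atTop, Big c K c1 x := by
  have L1 := ev_log 1 0.0001 one_pos (by norm_num)
  have L2 := ev_log (c / 80) 1 (by positivity) one_pos
  have R1 := ev_rpow 4 (1 / 40) (1 / 30) (by norm_num)
  have R2 := ev_rpow 5 (1 / 40) 1 (by norm_num)
  have R3 := ev_rpow 3 (1 / 30) (1 / 20) (by norm_num)
  have R4 := ev_rpow 4 (1 / 20) 1 (by norm_num)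
  have R5 := ev_rpow (9 * K) (c / 160 - c / 40) (-c1) (by linarith)
  have R6 := ev_rpow 6 (-2) (-c1) (by linarith)
  have E1 := ((isLittleO_rpow_exp_pos_mul_atTop c1 (b := Real.log 2 / 2)
    (by have := Real.log_pos (one_lt_two); linarith)).bound (c := 1 / 3) (by norm_num))
  filter_upwards [L1, L2, R1, R2, R3, R4, R5, R6, E1, Filter.eventually_ge_atTop 100] with x L1 L2 R1 R2 R3 R4 R5 R6 E1 hx
  have x0 : 0 < x := by linarith
  have lx : 0 ≤ Real.log x := Real.log_nonneg (by linarith)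
  rw [Real.rpow_one] at L1 R2 R4
  have h40 : 1 ≤ x ^ (1 / 40 : ℝ) := Real.one_le_rpow (by linarith) (by norm_num)
  refine ⟨hx, ?_, ?_, ?_, ?_, R4, ?_⟩
  · have : Real.sqrt (x * Real.log x) ≤ 0.01 * x := by
      apply Real.sqrt_le_iff.2
      constructor
      · positivity
      · nlinarith
    linarith
  · have h3 : (x / 2) ^ (1 / 30 : ℝ) = x ^ (1 / 30 : ℝ) * (1 / 2) ^ (1 / 30 : ℝ) := by
      rw [← Real.mul_rpow x0.le (by norm_num)]; ring_nf
    have h4 : (1 / 2 : ℝ) ≤ (1 / 2) ^ (1 / 30 : ℝ) := by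
      conv_lhs => rw [← Real.rpow_one (1 / 2 : ℝ)]
      exact Real.rpow_le_rpow_of_exponent_ge (by norm_num) (by norm_num) (by norm_num)
    rw [h3]
    have h5 : 0 ≤ x ^ (1 / 30 : ℝ) := Real.rpow_nonneg x0.le _
    nlinarith
  · linarith
  · have h3 : (3 * x) ^ (1 / 30 : ℝ) = 3 ^ (1 / 30 : ℝ) * x ^ (1 / 30 : ℝ) := by
      rw [Real.mul_rpow (by norm_num) x0.le]
    have h4 : (3 : ℝ) ^ (1 / 30 : ℝ) ≤ 3 := by
      conv_rhs => rw [← Real.rpow_one (3 : ℝ)]
      exact Real.rpow_le_rpow_of_exponent_le (by norm_num) (by norm_num)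
    rw [h3]
    refine le_trans ?_ R3
    exact mul_le_mul_of_nonneg_right h4 (Real.rpow_nonneg x0.le _)
  · -- the error terms
    have T1 : (2 * Real.sqrt (x * Real.log x) + 1) * (K / Real.sqrt x * (x ^ (1 / 40 : ℝ)) ^ (-c)) ≤ x ^ (-c1) / 3 := by
      have s1 : Real.sqrt (x * Real.log x) ≤ Real.sqrt x * x ^ (c / 160) := by
        apply Real.sqrt_le_iff.2
        constructor
        · positivity
        · have : (x ^ (c / 160)) ^ 2 = x ^ (c / 80) := by
            rw [← Real.rpow_natCast, ← Real.rpow_mul x0.le]; norm_num; ring_nf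
          rw [mul_pow, Real.sq_sqrt x0.le, this]
          apply mul_le_mul_of_nonneg_left _ x0.le
          linarith
      have s2 : 1 ≤ Real.sqrt x * x ^ (c / 160) := by
        have a1 : 1 ≤ Real.sqrt x := Real.one_le_sqrt.2 (by linarith)
        have a2 : 1 ≤ x ^ (c / 160) := Real.one_le_rpow (by linarith) (by positivity)
        nlinarith
      have s3 : 0 < Real.sqrt x := Real.sqrt_pos.2 x0
      have s4 : (x ^ (1 / 40 : ℝ)) ^ (-c) = x ^ (-(c / 40)) := by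
        rw [← Real.rpow_mul x0.le]; ring_nf
      rw [s4]
      calc (2 * Real.sqrt (x * Real.log x) + 1) * (K / Real.sqrt x * x ^ (-(c / 40)))
          ≤ (3 * (Real.sqrt x * x ^ (c / 160))) * (K / Real.sqrt x * x ^ (-(c / 40))) := by
            apply mul_le_mul_of_nonneg_right _ (by positivity)
            linarith
        _ = 3 * K * (x ^ (c / 160) * x ^ (-(c / 40))) := by field_simp
        _ = 3 * K * x ^ (c / 160 - c / 40) := by rw [← Real.rpow_add x0]; ring_nf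
        _ ≤ x ^ (-c1) / 3 := by linarith
    have T2 : 2 * Real.exp (-(2 * Real.log x)) ≤ x ^ (-c1) / 3 := by
      have : Real.exp (-(2 * Real.log x)) = x ^ (-2 : ℝ) := by
        rw [Real.rpow_def_of_pos x0]; ring_nf
      rw [this]
      linarith
    have T3 : Real.exp (-(Real.log 2 / 2 * x)) ≤ x ^ (-c1) / 3 := by
      rw [Real.norm_of_nonneg (Real.rpow_nonneg x0.le _), Real.norm_of_nonneg (Real.exp_pos _).le] at E1
      rw [Real.exp_neg, Real.rpow_neg x0.le, inv_eq_one_div, inv_eq_one_div, div_div,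
        div_le_div_iff₀ (Real.exp_pos _) (by positivity)]
      linarith
    linarith

end Pool.Agent.K7.H86.TD
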